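import Pool.Agent.Y46.Kc.Two
import Pool.Agent.H119R2.Kp.D4
import Pool.Agent.H119R2.Kp.PVE

/-!
# Properties that hold for disjoint cliques of size `2 ^ a` (MP_257582_lc)

Let `n = r + k 2^a` be arbitrary, let `A` be a graph on `r` vertices and `S` a set of its vertices.
`frame A S` is the graph `A` together with `k 2^a` further vertices, each of them joined to
the vertices in `S` only; `frameCliques A S` is the same graph with `k` disjoint complete graphs of
order `2^a` on the further vertices. Every monotone isomorphism-invariant property of graphs on `n`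
vertices that fails for `frame A S` and holds for `frameCliques A S` needs at least
`C(k, 2) 4^a` queries, and so does every such property that holds for the complement of
`frame A S` and fails for the complement of `frameCliques A S`.

For `r < 2^a` (for instance `A`, `S` empty, `k = ⌊n / 2^a⌋`) the bound is
`(n - r) (n - r - 2^a) / 2 = n^2 / 2 - O(2^a n)`, so the property is asymptotically evasive if
`2^a = o(n)`, for every `n` (no prime power condition).
-/

set_option autoImplicit false
open Finset

namespace Pool.Agent.Results.MP_257582_lc.CliqueBlocks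

open Pool.Agent.Y46.Kc
open Pool.Agent.H119R2.Kp (GP PV dual)

/-- The graph `A` and the further vertices `Fin k × Fin m`, which are joined to the vertices in
`S`. -/
def frame {r : ℕ} (A : SimpleGraph (Fin r)) (S : Set (Fin r)) (k m : ℕ) :
    SimpleGraph (Fin r ⊕ Fin k × Fin m) where
  Adj
    | .inl a, .inl b => A.Adj a b
    | .inl a, .inr _ => a ∈ S
    | .inr _, .inl a => a ∈ S
    | .inr _, .inr _ => False
  symm := ⟨by
    rintro (u | u) (v | v) h
    · exact SimpleGraph.Adj.symm h
    · exact h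
    · exact h
    · exact h⟩
  loopless := ⟨by
    rintro (u | u) h
    · exact A.loopless.irrefl u h
    · exact h⟩

/-- The same graph with the `k` complete graphs on the sets `{i} × Fin m` of further vertices. -/
def frameCliques {r : ℕ} (A : SimpleGraph (Fin r)) (S : Set (Fin r)) (k m : ℕ) :
    SimpleGraph (Fin r ⊕ Fin k × Fin m) where
  Adj
    | .inl a, .inl b => A.Adj a b
    | .inl a, .inr _ => a ∈ S
    | .inr _, .inl a => a ∈ S
    | .inr u, .inr v => u.1 = v.1 ∧ u.2 ≠ v.2
  symm := ⟨by
    rintro (u | u) (v | v) h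
    · exact SimpleGraph.Adj.symm h
    · exact h
    · exact h
    · exact ⟨h.1.symm, h.2.symm⟩⟩
  loopless := ⟨by
    rintro (u | u) h
    · exact A.loopless.irrefl u h
    · exact h.2 rfl⟩

/-- The property `P` of graphs on `Fin n` holds for a graph on `Fin n` isomorphic to `G`. -/
def Holds {n : ℕ} (P : SimpleGraph (Fin n) → Prop) {V : Type} (G : SimpleGraph V) : Prop :=
  ∃ e : V ≃ Fin n, P (G.map e.toEmbedding)

/-- the bound in one direction -/
theorem bound {n q : ℕ} {P : SimpleGraph (Fin n) → Prop} (hP : GP n q P) {r k a : ℕ}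
    (hn : n = r + k * 2 ^ a) (A : SimpleGraph (Fin r)) (S : Set (Fin r))
    (h0 : ¬ Holds P (frame A S k (2 ^ a))) (h1 : Holds P (frameCliques A S k (2 ^ a))) :
    k.choose 2 * (2 ^ a) ^ 2 ≤ q := by
  rcases Nat.lt_or_ge k 2 with hk | hk
  · rw [Nat.choose_eq_zero_of_lt hk, zero_mul]
    exact Nat.zero_le _
  have : NeZero k := ⟨by omega⟩
  have e1 : Fin k ≃ ZMod k := Fintype.equivOfCardEq (by simp [ZMod.card])
  have e2 : Fin (2 ^ a) ≃ (Fin a → ZMod 2) := Fintype.equivOfCardEq (by simp [ZMod.card])
  set e : Fin r ⊕ Fin k × Fin (2 ^ a) ≃ VV r k (Fin a → ZMod 2) :=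
    Equiv.sumCongr (Equiv.refl _) (Equiv.prodCongr e1 e2) with he
  refine two hP a hn.symm A S (fun h => h0 ?_) ?_
  · refine PV_emb hP.mono e.symm ?_ h
    rintro (u | u) (v | v) huv
    · exact huv
    · exact huv
    · exact huv
    · rcases huv with ⟨_, _, h | h⟩ | ⟨_, h | h⟩ <;> exact h.elim
  · refine PV_emb hP.mono e ?_ h1
    rintro (u | u) (v | v) huv
    · exact huv
    · exact huv
    · exact huv
    · refine Or.inl ⟨congrArg e1 huv.1, fun h => huv.2 (e2.injective h), Or.inl trivial⟩

/-- Monotone properties that fail for `frame A S` and hold for `frameCliques A S` (cliques of order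
`2 ^ a`), or dually, need at least `C(k, 2) 4 ^ a` queries: for every adaptive strategy `s` and every
smaller number `q` there are two graphs that agree on the `q` queried pairs, one with and one
without the property. -/
theorem result (n r k a : ℕ) (hn : n = r + k * 2 ^ a) (A : SimpleGraph (Fin r)) (S : Set (Fin r))
    (P : SimpleGraph (Fin n) → Prop)
    (hmono : ∀ G H : SimpleGraph (Fin n), G ≤ H → P G → P H)
    (hiso : ∀ (σ : Fin n ≃ Fin n) (G : SimpleGraph (Fin n)), P G → P (G.map σ.toEmbedding))
    (hP : (¬ Holds P (frame A S k (2 ^ a)) ∧ Holds P (frameCliques A S k (2 ^ a))) ∨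
      (Holds P (frame A S k (2 ^ a))ᶜ ∧ ¬ Holds P (frameCliques A S k (2 ^ a))ᶜ)) :
    ∀ s : Finset (Sym2 (Fin n)) → SimpleGraph (Fin n) → Sym2 (Fin n),
      (∀ (Q : Finset (Sym2 (Fin n))) (G H : SimpleGraph (Fin n)),
          (∀ e ∈ Q, (e ∈ G.edgeSet ↔ e ∈ H.edgeSet)) → s Q G = s Q H) →
      ∀ q : ℕ, q < k.choose 2 * (2 ^ a) ^ 2 →
        ∃ G H : SimpleGraph (Fin n),
          (∀ e ∈ (fun Q : Finset (Sym2 (Fin n)) => insert (s Q G) Q)^[q]
                (∅ : Finset (Sym2 (Fin n))),
              (e ∈ G.edgeSet ↔ e ∈ H.edgeSet)) ∧ P G ∧ ¬ P H := by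
  intro s hs q hq
  by_contra hcon
  have hdec : Pool.Agent.H119R2.Kp.Dec q
      (fun S : Finset (Pool.Agent.H98R2.Ev.EV (Fin n)) => P (Pool.Agent.H98R2.Ev.toG S)) := by
    refine Pool.Agent.H119R2.Kp.dec_of_strategy _ P s hs fun G H hGH hPG => ?_
    by_contra hPH
    exact hcon ⟨G, H, hGH, hPG, hPH⟩
  have hGP : GP n q P := ⟨hmono, hiso, hdec⟩
  have hcard : Nonempty (Fin r ⊕ Fin k × Fin (2 ^ a) ≃ Fin n) := by
    refine ⟨Fintype.equivFinOfCardEq ?_⟩
    simp [hn]
  have main : k.choose 2 * (2 ^ a) ^ 2 ≤ q := by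
    rcases hP with ⟨h0, h1⟩ | ⟨h0, h1⟩
    · exact bound hGP hn A S h0 h1
    · refine bound hGP.dual' hn A S ?_ ?_
      · intro h
        exact (Pool.Agent.H119R2.Kp.PV_dual hGP _ _ hcard).1 h h0
      · exact (Pool.Agent.H119R2.Kp.PV_dual hGP _ _ hcard).2 h1
  omega

end Pool.Agent.Results.MP_257582_lc.CliqueBlocks
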