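import Mathlib
import Pool.Agent.X82.EF4

set_option autoImplicit false

/-!
# Having a factor is evasive for every number of vertices (MP_257582_lc)

For all `n`, `a`, `b` the property of graphs on `n` vertices of having an `[a, b]`-factor (a spanning
subgraph all degrees of which are between `a` and `b`) is evasive whenever it is not trivial; in
particular having a `k`-factor is evasive for all `k` and `n` for which there are `k`-regular graphs
on `n` vertices. There is no arithmetic condition on `n`.

More generally let `P` be a monotone isomorphism-invariant property that holds for all graphs with a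
`k`-factor and fails for all graphs of maximum degree less than `k`. If `k` is even, then `P` is
evasive for every `n > k`. If `k` is odd, then `P` is evasive if it also holds for all graphs with a
`(k + 1)`-factor, or if `n` is even and every graph with `P` has a connected component with an even
number of vertices.

Proof.  Let `A` be an abelian group of order `n`. A symmetric subset `S` of `A` with at least `k`
elements contains a symmetric subset with `k` or `k + 1` elements, with exactly `k` if `k` is even. So
in the first two cases the Cayley graph of `S` has `P` if and only if `S` has at least `k` elements,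
and the theorem on Cayley graphs of abelian groups behind `RegularDegrees` applies. In the last case
let `A` be cyclic. If `S` contains an element `s` of even order, then the Cayley graph has a `k`-factor:
every second edge of the cycles of step `s` and a symmetric set of `k - 1` other elements. If all
elements of `S` have odd order, then all components are odd and the Cayley graph does not have `P`. So
if `P` is not evasive, then the relation of Kahn, Saks and Sturtevant (Smith, Lefschetz, Oliver) says
`C(N, j) = C(M - 1, j)`, `k = 2 j + 1`, `n = 2 N + 2`, where `M ≤ N` is the number of pairs `{s, -s}` of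
non-zero elements of odd order; this is impossible for `j ≥ 1`. For `k = 1` see `DisjointCopies`.
-/

namespace Pool.Agent.Results.MP_257582_lc.Factors

open Pool.Agent.H119R2.Kp (GP)
open Pool.Agent.X82.EF

/-- Every decision strategy `σ` (the next pair to be queried depends only on the answers to the
queries made so far) needs all `n.choose 2` queries: there are two graphs that agree on the first
`n.choose 2 - 1` queried pairs, one with and one without `P`. -/
def Evasive {n : ℕ} (P : SimpleGraph (Fin n) → Prop) : Prop :=
  ∀ σ : Finset (Sym2 (Fin n)) → SimpleGraph (Fin n) → Sym2 (Fin n),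
    (∀ (Q : Finset (Sym2 (Fin n))) (G H : SimpleGraph (Fin n)),
        (∀ e ∈ Q, (e ∈ G.edgeSet ↔ e ∈ H.edgeSet)) → σ Q G = σ Q H) →
    ∃ G H : SimpleGraph (Fin n),
      (∀ e ∈ (fun Q : Finset (Sym2 (Fin n)) => insert (σ Q G) Q)^[n.choose 2 - 1]
            (∅ : Finset (Sym2 (Fin n))),
          (e ∈ G.edgeSet ↔ e ∈ H.edgeSet)) ∧ P G ∧ ¬ P H

/-- `G` has a spanning subgraph all degrees of which belong to `D`. -/
def HasFactor {n : ℕ} (D : Set ℕ) (G : SimpleGraph (Fin n)) : Prop :=
  ∃ F : SimpleGraph (Fin n), F ≤ G ∧ ∀ v, (F.neighborSet v).ncard ∈ D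

theorem sandwich (n k : ℕ) (P : SimpleGraph (Fin n) → Prop) (hk : 1 ≤ k) (hkn : k < n)
    (hmono : ∀ G H : SimpleGraph (Fin n), G ≤ H → P G → P H)
    (hiso : ∀ (σ : Fin n ≃ Fin n) (G : SimpleGraph (Fin n)), P G → P (G.map σ.toEmbedding))
    (hfac : ∀ G, HasFactor {k} G → P G) (hcore : ∀ G, P G → ∃ v, k ≤ (G.neighborSet v).ncard)
    (hcase : Even k ∨ (∀ G, HasFactor {k + 1} G → P G) ∨
      (Even n ∧ ∀ G, P G → ∃ v, Even {u | G.Reachable v u}.ncard)) : Evasive P := by
  intro σ hσ
  by_contra hcon
  have hdec : Pool.Agent.H119R2.Kp.Dec (n.choose 2 - 1)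
      (fun S : Finset (Pool.Agent.H98R2.Ev.EV (Fin n)) => P (Pool.Agent.H98R2.Ev.toG S)) := by
    refine Pool.Agent.H119R2.Kp.dec_of_strategy _ P σ hσ fun G H hGH hPG => ?_
    by_contra hPH
    exact hcon ⟨G, H, hGH, hPG, hPH⟩
  have hGP : GP n (n.choose 2 - 1) P := ⟨hmono, hiso, hdec⟩
  exact no_strategy hk hkn hGP hfac hcore hcase

/-- spanning subgraphs with degrees in a given set `D` with least element `a` -/
theorem degrees (n a : ℕ) (D : Set ℕ) (ha : 1 ≤ a) (han : a < n) (haD : a ∈ D)
    (hmin : ∀ h ∈ D, a ≤ h)
    (hcase : Even a ∨ a + 1 ∈ D ∨ (Even n ∧ ∀ h ∈ D, Odd h)) :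
    Evasive (fun G : SimpleGraph (Fin n) => HasFactor D G) := by
  have hsub : ∀ (d : ℕ), d ∈ D → ∀ G : SimpleGraph (Fin n), HasFactor {d} G →
      HasFactor D G := by
    rintro d hd G ⟨F, hF, h⟩
    exact ⟨F, hF, fun v => by rw [Set.mem_singleton_iff.1 (h v)]; exact hd⟩
  refine sandwich n a _ ha han (fun G H h => fun h' => Fac.mono h' h)
    (fun σ G h => Fac.map σ h) (hsub a haD) ?_ ?_
  · rintro G ⟨F, hF, h⟩
    let v : Fin n := ⟨0, by omega⟩
    refine ⟨v, (hmin _ (h v)).trans (Set.ncard_le_ncard ?_ (Set.toFinite _))⟩
    intro x hx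
    exact hF hx
  · rcases hcase with h | h | ⟨h1, h2⟩
    · exact Or.inl h
    · exact Or.inr (Or.inl (hsub (a + 1) h))
    · exact Or.inr (Or.inr ⟨h1, fun G hG => comp_even h2 (by omega) G hG⟩)

/-- **Evasiveness of factors.** -/
theorem result :
    -- (1) `[a, b]`-factors: evasive whenever the property is not trivial
    (∀ n a b : ℕ, (∃ G : SimpleGraph (Fin n), HasFactor (Set.Icc a b) G) →
      (∃ G : SimpleGraph (Fin n), ¬ HasFactor (Set.Icc a b) G) →
      Evasive (fun G : SimpleGraph (Fin n) => HasFactor (Set.Icc a b) G)) ∧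
    -- (2) all properties between having a `k`-factor and maximum degree at least `k`
    (∀ (n k : ℕ) (P : SimpleGraph (Fin n) → Prop), 1 ≤ k → k < n →
      (∀ G H : SimpleGraph (Fin n), G ≤ H → P G → P H) →
      (∀ (σ : Fin n ≃ Fin n) (G : SimpleGraph (Fin n)), P G → P (G.map σ.toEmbedding)) →
      (∀ G, HasFactor {k} G → P G) → (∀ G, P G → ∃ v, k ≤ (G.neighborSet v).ncard) →
      (Even k ∨ (∀ G, HasFactor {k + 1} G → P G) ∨
        (Even n ∧ ∀ G, P G → ∃ v, Even {u | G.Reachable v u}.ncard)) → Evasive P) := by
  refine ⟨?_, sandwich⟩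
  rintro n a b ⟨G, F, hF, hFd⟩ ⟨G', hG'⟩
  have hn : 0 < n := by
    rcases Nat.eq_zero_or_pos n with h | h
    · subst h
      exact absurd ⟨⊥, bot_le, fun v => v.elim0⟩ hG'
    · exact h
  let v : Fin n := ⟨0, hn⟩
  have hlt : (F.neighborSet v).ncard < n := by
    have h1 : (F.neighborSet v).ncard < (Set.univ : Set (Fin n)).ncard := by
      refine Set.ncard_lt_ncard ⟨Set.subset_univ _, fun h => ?_⟩ (Set.toFinite _)
      exact F.loopless.irrefl v (h (Set.mem_univ v))
    rwa [Set.ncard_univ, Nat.card_eq_fintype_card, Fintype.card_fin] at h1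
  obtain ⟨h1, h2⟩ := hFd v
  have ha : 1 ≤ a := by
    by_contra hcon
    apply hG'
    refine ⟨⊥, bot_le, fun w => ?_⟩
    have : (⊥ : SimpleGraph (Fin n)).neighborSet w = ∅ := by
      ext x
      simp
    rw [this, Set.ncard_empty]
    exact ⟨by omega, by omega⟩
  refine degrees n a _ ha (by omega) ⟨le_refl _, by omega⟩ (fun h hh => hh.1) ?_
  rcases Nat.even_or_odd a with he | ho
  · exact Or.inl he
  rcases Nat.lt_or_ge a b with hab | hab
  · exact Or.inr (Or.inl ⟨by omega, by omega⟩)
  · have hreg : Pool.Agent.W332.Kd.Reg F a := fun w => by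
      have := hFd w
      rw [Set.mem_Icc] at this
      omega
    have h3 := Pool.Agent.W332.Kd.Reg_even F hreg
    rw [Nat.even_mul] at h3
    refine Or.inr (Or.inr ⟨h3.resolve_right (Nat.not_even_iff_odd.2 ho), fun h hh => ?_⟩)
    have : h = a := by
      rw [Set.mem_Icc] at hh
      omega
    rw [this]
    exact ho

end Pool.Agent.Results.MP_257582_lc.Factors
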