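import Mathlib
import Pool.Agent.X82.SB2
import Pool.Agent.X82.SB3
import Pool.Agent.H119R2.Kp.D
import Pool.Agent.H119R2.Kp.D4

set_option autoImplicit false

/-!
# Properties that hold for small graphs, one of them bipartite, are evasive for all large `n`
(MP_257582_lc)

Let `n ≥ 1563707`. A monotone isomorphism-invariant property of graphs on `n` vertices is evasive if
it fails for the graph without edges, holds for some graph with at most 1013 non-isolated vertices and
holds for some bipartite graph with at most 1013 non-isolated vertices in each class (in other words: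
if it holds for a clique on 1013 vertices and for a complete bipartite graph with parts of size 1013,
both completed by isolated vertices). In particular every property is evasive that holds for some
bipartite graph with at most 1013 non-isolated vertices, for example containing the complete
bipartite graph with parts of sizes `s`, `t`, `s + t ≤ 1013`, or containing a member of an arbitrary
family of graphs one of which is such a graph. The dual statement holds too. No residue class of
`n` is excluded.

Proof.  Let `p = 1013`. For every residue class modulo `p` except `0` there is a prime `L` with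
`p < L ≤ 1563707` in this class such that `(L - 1) / 2` is prime (a table, checked by the kernel).
So the vertex set can be cut into blocks with `p` vertices, fields of order `p`, and at most one
block of size `L`, a field of order `L`. The group is generated by the translations of the single
`p`-blocks, by the permutation that multiplies all `p`-blocks by a generator and rotates the
`L`-block, and by the multiplication of the `L`-block by a generator, which has on pairs of vertices an
order that is a power of a prime modulo the first ones. It is transitive on the pairs inside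
each block and on the pairs between any two blocks. So every nonempty invariant graph contains a
complete graph on a block or a complete bipartite graph between two blocks, hence has the property.
If the property is not evasive, this contradicts the theorems of Smith, Lefschetz and Oliver
(Kahn, Saks and Sturtevant; in the form of `DisjointCopies`).
-/

namespace Pool.Agent.Results.MP_257582_lc.SmallBipartite

open Pool.Agent.H119R2.Kp (GP PV dual)

/-- Every decision strategy `σ` (the next pair to be queried depends only on the answers to the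
queries made so far) needs all `n.choose 2` queries: there are two graphs that agree on the first
`n.choose 2 - 1` queried pairs, one with and one without `P`. -/
def Evasive {n : ℕ} (P : SimpleGraph (Fin n) → Prop) : Prop :=
  ∀ σ : Finset (Sym2 (Fin n)) → SimpleGraph (Fin n) → Sym2 (Fin n),
    (∀ (Q : Finset (Sym2 (Fin n))) (G H : SimpleGraph (Fin n)),
        (∀ e ∈ Q, (e ∈ G.edgeSet ↔ e ∈ H.edgeSet)) → σ Q G = σ Q H) →
    ∃ G H : SimpleGraph (Fin n),
      (∀ e ∈ (fun Q : Finset (Sym2 (Fin n)) => insert (σ Q G) Q)^[n.choose 2 - 1]
            (∅ : Finset (Sym2 (Fin n))),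
          (e ∈ G.edgeSet ↔ e ∈ H.edgeSet)) ∧ P G ∧ ¬ P H

/-- At most 1013 vertices are not isolated. -/
def SmallSupport {n : ℕ} (H : SimpleGraph (Fin n)) : Prop :=
  {v | ∃ w, H.Adj v w}.ncard ≤ 1013

/-- Bipartite with at most 1013 non-isolated vertices in each class. -/
def SmallParts {n : ℕ} (H : SimpleGraph (Fin n)) : Prop :=
  ∃ c : Fin n → Bool, (∀ v w, H.Adj v w → c v ≠ c w) ∧
    ∀ i, {v | c v = i ∧ ∃ w, H.Adj v w}.ncard ≤ 1013

theorem main {n q : ℕ} (hn : 1563707 ≤ n) {P : SimpleGraph (Fin n) → Prop} (hP : GP n q P)
    (h0 : ¬ P ⊥) (H0 H1 : SimpleGraph (Fin n)) (hH0 : P H0) (hH1 : P H1) (hs0 : SmallSupport H0)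
    (hs1 : SmallParts H1) : n.choose 2 ≤ q := by
  classical
  obtain ⟨c, hc, hcard1⟩ := hs1
  have h1013 : Nat.Prime 1013 := by norm_num
  have h2027 : Nat.Prime 2027 := by norm_num
  have : Fact (Nat.Prime 1013) := ⟨h1013⟩
  set S : Finset (Fin n) := Finset.univ.filter fun v => ∃ w, H0.Adj v w with hS
  have hScard : S.card ≤ 1013 := by
    unfold SmallSupport at hs0
    rw [← Set.ncard_coe_finset]
    convert hs0 using 2
    ext v
    simp [hS]
  have hSa : ∀ a b, H0.Adj a b → a ∈ S := fun a b h => by
    rw [hS, Finset.mem_filter]
    exact ⟨Finset.mem_univ _, b, h⟩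
  set S1 : Finset (Fin n) := Finset.univ.filter fun v => ∃ w, H1.Adj v w with hS1
  have hS1card : ∀ i, (S1.filter fun a => c a = i).card ≤ 1013 := by
    intro i
    rw [← Set.ncard_coe_finset]
    convert hcard1 i using 2
    ext v
    simp [hS1, and_comm]
  have hS1a : ∀ a b, H1.Adj a b → a ∈ S1 := fun a b h => by
    rw [hS1, Finset.mem_filter]
    exact ⟨Finset.mem_univ _, b, h⟩
  have key : ∀ (J : Type) [Fintype J] [DecidableEq J] [Subsingleton J] (L l : ℕ), L.Prime →
      l.Prime → 1013 < L → L = 2 * l ^ 1 + 1 → (n - Fintype.card J * L) % 1013 = 0 →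
      Fintype.card J * L ≤ n → n.choose 2 ≤ q := by
    intro J _ _ _ L l hL hl hlt hLl hmod hle
    have : Fact L.Prime := ⟨hL⟩
    have : Fact l.Prime := ⟨hl⟩
    refine Pool.Agent.X82.SB.blocks hP ((n - Fintype.card J * L) / 1013) 1013 L J hlt l 1 hLl
      ?_ (by omega) h0 H0 H1 hH0 hH1 S hSa hScard c hc S1 hS1a hS1card
    have := Nat.div_add_mod (n - Fintype.card J * L) 1013
    omega
  rcases Nat.eq_zero_or_pos (n % 1013) with h | h
  · refine key Empty 2027 1013 h2027 h1013 (by norm_num) (by norm_num) ?_ ?_
    · simpa using h
    · simp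
  · rcases Nat.lt_or_ge (n % 1013) 2 with h2 | h2
    · refine key Unit 2027 1013 h2027 h1013 (by norm_num) (by norm_num) ?_ ?_
      · rw [Fintype.card_unit]
        omega
      · rw [Fintype.card_unit]
        omega
    · obtain ⟨x, hx1, hx2, hx3, hx4, l, hl, hxl⟩ :=
        Pool.Agent.X82.SB.table (n % 1013) h2 (Nat.mod_lt _ (by norm_num))
      refine key Unit x l hx4 hl hx2 hxl ?_ ?_
      · rw [Fintype.card_unit, one_mul]
        omega
      · rw [Fintype.card_unit, one_mul]
        omega

/-- **Properties that hold for small graphs, one of them bipartite, are evasive for all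
`n ≥ 1563707`.** -/
theorem result (n : ℕ) (hn : 1563707 ≤ n) (P : SimpleGraph (Fin n) → Prop)
    (hmono : ∀ G H : SimpleGraph (Fin n), G ≤ H → P G → P H)
    (hiso : ∀ (σ : Fin n ≃ Fin n) (G : SimpleGraph (Fin n)), P G → P (G.map σ.toEmbedding))
    (hP : (¬ P ⊥ ∧ (∃ H : SimpleGraph (Fin n), SmallSupport H ∧ P H) ∧
        ∃ H : SimpleGraph (Fin n), SmallParts H ∧ P H) ∨
      (P ⊤ ∧ (∃ H : SimpleGraph (Fin n), SmallSupport H ∧ ¬ P Hᶜ) ∧
        ∃ H : SimpleGraph (Fin n), SmallParts H ∧ ¬ P Hᶜ)) :
    Evasive P := by
  intro σ hσ
  by_contra hcon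
  have hdec : Pool.Agent.H119R2.Kp.Dec (n.choose 2 - 1)
      (fun S : Finset (Pool.Agent.H98R2.Ev.EV (Fin n)) => P (Pool.Agent.H98R2.Ev.toG S)) := by
    refine Pool.Agent.H119R2.Kp.dec_of_strategy _ P σ hσ fun G H hGH hPG => ?_
    by_contra hPH
    exact hcon ⟨G, H, hGH, hPG, hPH⟩
  have hGP : GP n (n.choose 2 - 1) P := ⟨hmono, hiso, hdec⟩
  have hch : 0 < n.choose 2 := Nat.choose_pos (by omega)
  have hm : n.choose 2 ≤ n.choose 2 - 1 := by
    rcases hP with ⟨h0, ⟨H0, hs0, hH0⟩, H1, hs1, hH1⟩ | ⟨h0, ⟨H0, hs0, hH0⟩, H1, hs1, hH1⟩
    · exact main hn hGP h0 H0 H1 hH0 hH1 hs0 hs1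
    · refine main hn hGP.dual' ?_ H0 H1 hH0 hH1 hs0 hs1
      intro h
      apply h
      rwa [compl_bot]
  omega

end Pool.Agent.Results.MP_257582_lc.SmallBipartite
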