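import Mathlib
import Pool.Agent.X82.ST2

set_option autoImplicit false

/-!
# Strength and edge connectivity: evasiveness for every number of vertices (MP_257582_lc)

The strength of a graph is the largest `t` such that for every partition of the vertex set into `r`
classes at least `t (r - 1)` edges join different classes. For every `N` and every real number `t`
with `1 < t ≤ N / 2` (for `t > N / 2` no graph has strength at least `t`) the property of graphs on
`N` vertices of having strength at least `t` is evasive. There is no arithmetic condition on `N`. By
the theorem of Nash-Williams and Tutte (not used here) a graph has strength at least `k`, `k` an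
integer, if and only if it contains `k` edge-disjoint spanning trees.

More generally let `2 ≤ k < N`. Every monotone isomorphism-invariant property of graphs on `N` vertices
is evasive that holds for all `k`-edge-connected graphs of strength at least `(k + 1) / 2` and fails
for all graphs with an isolated vertex and for all graphs from which a vertex can be removed so that
the remaining graph has maximum degree less than `k - 1`. This contains edge connectivity (at least
`k`), strength, minimum degree, and for example being connected with at least `m` edges.

Proof.  Let `K` be a `d`-regular graph on `N - 1` vertices. The cone over `K` is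
`(d + 1)`-edge-connected (`ConeDegrees`) and has strength at least `(d + 2) / 2`: a class of `s` vertices
that does not contain the apex sends at least `s + s (d + 1 - s) / 2` edges to the apex and, counted
with weight `1 / 2`, to other classes. So the property holds for the cone over `K` if and only if
`d ≥ k - 1`, and the theorem on cone degree properties of `ConeDegrees` applies.
-/

namespace Pool.Agent.Results.MP_257582_lc.Strength

/-- Every decision strategy `σ` (the next pair to be queried depends only on the answers to the
queries made so far) needs all `N.choose 2` queries: there are two graphs that agree on the first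
`N.choose 2 - 1` queried pairs, one with and one without `P`. -/
def Evasive {N : ℕ} (P : SimpleGraph (Fin N) → Prop) : Prop :=
  ∀ σ : Finset (Sym2 (Fin N)) → SimpleGraph (Fin N) → Sym2 (Fin N),
    (∀ (Q : Finset (Sym2 (Fin N))) (G H : SimpleGraph (Fin N)),
        (∀ e ∈ Q, (e ∈ G.edgeSet ↔ e ∈ H.edgeSet)) → σ Q G = σ Q H) →
    ∃ G H : SimpleGraph (Fin N),
      (∀ e ∈ (fun Q : Finset (Sym2 (Fin N)) => insert (σ Q G) Q)^[N.choose 2 - 1]
            (∅ : Finset (Sym2 (Fin N))),
          (e ∈ G.edgeSet ↔ e ∈ H.edgeSet)) ∧ P G ∧ ¬ P H

/-- The edges of `G` that join different classes of the partition into the fibres of `f`. -/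
def Crossing {N : ℕ} (G : SimpleGraph (Fin N)) (f : Fin N → Fin N) : Set (Sym2 (Fin N)) :=
  {e | ∃ u v, G.Adj u v ∧ f u ≠ f v ∧ e = s(u, v)}

/-- Strength at least `t`: for every partition into `r` classes at least `t (r - 1)` edges join
different classes. -/
def StrengthAtLeast {N : ℕ} (t : ℝ) (G : SimpleGraph (Fin N)) : Prop :=
  ∀ f : Fin N → Fin N, t * (((Set.range f).ncard : ℝ) - 1) ≤ ((Crossing G f).ncard : ℝ)

/-- **Evasiveness of strength.** -/
theorem result :
    -- (1) strength at least `t`
    (∀ (N : ℕ) (t : ℝ), 1 < t → t ≤ N / 2 →
      Evasive (fun G : SimpleGraph (Fin N) => StrengthAtLeast t G)) ∧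
    -- (2) all properties implied by `k`-edge-connectivity and strength at least `(k + 1) / 2` that
    -- fail for graphs with an isolated vertex and imply that after the removal of any vertex `v`
    -- there is a vertex `u` of degree at least `k - 1`
    (∀ (N k : ℕ) (P : SimpleGraph (Fin N) → Prop), 2 ≤ k → k < N →
      (∀ G H : SimpleGraph (Fin N), G ≤ H → P G → P H) →
      (∀ (σ : Fin N ≃ Fin N) (G : SimpleGraph (Fin N)), P G → P (G.map σ.toEmbedding)) →
      (∀ G : SimpleGraph (Fin N), G.IsEdgeConnected k →
        StrengthAtLeast (((k : ℝ) + 1) / 2) G → P G) →
      (∀ G : SimpleGraph (Fin N), P G → ∀ v, ∃ w, G.Adj v w) →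
      (∀ G : SimpleGraph (Fin N), P G →
        ∀ v, ∃ u, u ≠ v ∧ k - 1 ≤ (G.neighborSet u \ {v}).ncard) →
      Evasive P) :=
  ⟨fun N t h1 h2 => Pool.Agent.X82.ST.str_evasive N t h1 h2,
    fun N k P h1 h2 h3 h4 h5 h6 h7 => Pool.Agent.X82.ST.sandwich N k h1 h2 P h3 h4 h5 h6 h7⟩

end Pool.Agent.Results.MP_257582_lc.Strength
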